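import Mathlib.Data.Multiset.Filter
import Mathlib.Algebra.BigOperators.Group.Multiset.Basic
import Mathlib.Algebra.Order.BigOperators.Group.Multiset
import Mathlib.Tactic

/-!
The combinatorial core: balanced choices of classes for the sizes of the parts.
-/

set_option autoImplicit false

open Multiset

namespace Q325.Maj

/-- the possible contributions of a part of size `n` -/
def Opt (n : ℕ) (u v : ℤ) : Prop :=
  (u = n ∧ v = -n) ∨ (n % 2 = 0 ∧ u = 0 ∧ v = 0) ∨ (n % 2 = 1 ∧ u = -1 ∧ v = -1) ∨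
    (n % 2 = 0 ∧ 2 ≤ n ∧ u = -2 ∧ v = n) ∨ (n % 2 = 1 ∧ 3 ≤ n ∧ u = -3 ∧ v = n)

/-- the possible totals of a multiset of sizes -/
inductive R : Multiset ℕ → ℤ → ℤ → Prop
  | zero : R 0 0 0
  | cons {n : ℕ} {s : Multiset ℕ} {u v x y : ℤ} : Opt n u v → R s x y → R (n ::ₘ s) (u + x) (v + y)

theorem R.add {s t : Multiset ℕ} {x y x' y' : ℤ} (h : R s x y) (h' : R t x' y') :
    R (s + t) (x + x') (y + y') := by
  induction h with
  | zero => simpa using h'
  | @cons n s u v x y ho h ih =>
    have := R.cons ho ih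
    rw [Multiset.cons_add, add_assoc, add_assoc]
    exact this

theorem R.inv {n : ℕ} : ∀ {s : Multiset ℕ} {x y : ℤ}, R s x y → ∀ t, s = n ::ₘ t →
    ∃ u v x' y', Opt n u v ∧ R t x' y' ∧ x = u + x' ∧ y = v + y' := by
  intro s x y h
  induction h with
  | zero => intro t ht; exact absurd ht.symm (Multiset.cons_ne_zero)
  | @cons m s u v x y ho h ih =>
    intro t ht
    rcases Multiset.cons_eq_cons.1 ht with ⟨rfl, rfl⟩ | ⟨_, w, hw1, hw2⟩
    · exact ⟨u, v, x, y, ho, h, rfl, rfl⟩
    · obtain ⟨u', v', x', y', ho', hR', hx, hy⟩ := ih w hw1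
      subst hw2
      exact ⟨u', v', u + x', v + y', ho', R.cons ho hR', by rw [hx]; ring, by rw [hy]; ring⟩

theorem R.single {n : ℕ} {u v : ℤ} (h : Opt n u v) : R {n} u v := by
  have := R.cons h R.zero
  simpa using this

theorem R.zero_inv : ∀ {s : Multiset ℕ} {x y : ℤ}, R s x y → s = 0 → x = 0 ∧ y = 0 := by
  intro s x y h
  induction h with
  | zero => intro _; exact ⟨rfl, rfl⟩
  | cons _ _ _ => intro h; exact absurd h (Multiset.cons_ne_zero)

/-- feasibility -/
def F (s : Multiset ℕ) : Prop := ∃ x y : ℤ, R s x y ∧ 0 ≤ x ∧ 0 ≤ y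

theorem F.add {s t : Multiset ℕ} (h : F s) (h' : F t) : F (s + t) := by
  obtain ⟨x, y, h1, h2, h3⟩ := h
  obtain ⟨x', y', h1', h2', h3'⟩ := h'
  exact ⟨_, _, h1.add h1', by omega, by omega⟩

theorem F.zero : F 0 := ⟨0, 0, R.zero, le_rfl, le_rfl⟩

theorem ones (k : ℕ) : R (replicate k 1) k (-k) := by
  induction k with
  | zero => simpa using R.zero
  | succ k ih =>
    rw [replicate_succ]
    have := R.cons (n := 1) (u := 1) (v := -1) (Or.inl ⟨by norm_num, by norm_num⟩) ih
    convert this using 1 <;> push_cast <;> ring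

/-- odd sizes at least three -/
def Od (s : Multiset ℕ) : Prop := ∀ n ∈ s, n % 2 = 1 ∧ 3 ≤ n
/-- even sizes at least two -/
def Ev (s : Multiset ℕ) : Prop := ∀ n ∈ s, n % 2 = 0 ∧ 2 ≤ n

theorem gE {s : Multiset ℕ} (h : Ev s) : R s (-2 * card s) s.sum := by
  induction s using Multiset.induction with
  | empty => simpa using R.zero
  | cons a s ih =>
    have h1 := h a (mem_cons_self a s)
    have := R.cons (n := a) (u := -2) (v := a) (Or.inr (Or.inr (Or.inr (Or.inl ⟨h1.1, h1.2, rfl, rfl⟩))))
      (ih fun n hn => h n (mem_cons_of_mem hn))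
    rw [card_cons, sum_cons]
    convert this using 1 <;> push_cast <;> ring

theorem gO {s : Multiset ℕ} (h : Od s) : R s (-3 * card s) s.sum := by
  induction s using Multiset.induction with
  | empty => simpa using R.zero
  | cons a s ih =>
    have h1 := h a (mem_cons_self a s)
    have := R.cons (n := a) (u := -3) (v := a)
      (Or.inr (Or.inr (Or.inr (Or.inr ⟨h1.1, h1.2, rfl, rfl⟩))))
      (ih fun n hn => h n (mem_cons_of_mem hn))
    rw [card_cons, sum_cons]
    convert this using 1 <;> push_cast <;> ring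

theorem zE {s : Multiset ℕ} (h : Ev s) : F s := by
  induction s using Multiset.induction with
  | empty => exact F.zero
  | cons a s ih =>
    have h1 := h a (mem_cons_self a s)
    have h2 : F {a} := ⟨0, 0, R.single (Or.inr (Or.inl ⟨h1.1, rfl, rfl⟩)), le_rfl, le_rfl⟩
    exact h2.add (ih fun n hn => h n (mem_cons_of_mem hn))

theorem sumE {s : Multiset ℕ} (h : Ev s) : 2 * card s ≤ s.sum ∧ s.sum % 2 = 0 := by
  induction s using Multiset.induction with
  | empty => simp
  | cons a s ih =>
    have h1 := h a (mem_cons_self a s)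
    have h2 := ih fun n hn => h n (mem_cons_of_mem hn)
    rw [card_cons, sum_cons]
    omega

theorem sumO {s : Multiset ℕ} (h : Od s) : 3 * card s ≤ s.sum ∧ s.sum % 2 = card s % 2 := by
  induction s using Multiset.induction with
  | empty => simp
  | cons a s ih =>
    have h1 := h a (mem_cons_self a s)
    have h2 := ih fun n hn => h n (mem_cons_of_mem hn)
    rw [card_cons, sum_cons]
    omega

theorem absE {s : Multiset ℕ} (h : Ev s) : F (replicate (2 * card s) 1 + s) :=
  ⟨_, _, (ones _).add (gE h), by push_cast; omega, by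
    have := (sumE h).1
    omega⟩

theorem absO {s : Multiset ℕ} (h : Od s) : F (replicate (3 * card s) 1 + s) :=
  ⟨_, _, (ones _).add (gO h), by push_cast; omega, by
    have := (sumO h).1
    omega⟩

theorem B_ (n : ℕ) : R {n} n (-n) := R.single (Or.inl ⟨rfl, rfl⟩)
theorem G_ {n : ℕ} (h : n % 2 = 1 ∧ 3 ≤ n) : R {n} (-3) n :=
  R.single (Or.inr (Or.inr (Or.inr (Or.inr ⟨h.1, h.2, rfl, rfl⟩))))
theorem P_ {n : ℕ} (h : n % 2 = 1 ∧ 3 ≤ n) : R {n} (-1) (-1) :=
  R.single (Or.inr (Or.inr (Or.inl ⟨h.1, rfl, rfl⟩)))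
theorem GE_ {n : ℕ} (h : n % 2 = 0 ∧ 2 ≤ n) : R {n} (-2) n :=
  R.single (Or.inr (Or.inr (Or.inr (Or.inl ⟨h.1, h.2, rfl, rfl⟩))))

theorem pair2 {a b : ℕ} (ha : a % 2 = 1 ∧ 3 ≤ a) (hb : b % 2 = 1 ∧ 3 ≤ b) : F ({a} + {b}) := by
  rcases le_total b a with h | h
  · exact ⟨_, _, (G_ ha).add (B_ b), by omega, by omega⟩
  · exact ⟨_, _, (B_ a).add (G_ hb), by omega, by omega⟩

theorem pairO : ∀ (k : ℕ) {s : Multiset ℕ}, Od s → card s = 2 * k → F s := by
  intro k
  induction k with
  | zero =>
    intro s _ hc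
    rw [card_eq_zero.1 (by omega : card s = 0)]
    exact F.zero
  | succ k ih =>
    intro s hs hc
    obtain ⟨a, s1, rfl⟩ : ∃ a t, s = a ::ₘ t := by
      have : s ≠ 0 := by intro h; rw [h] at hc; simp at hc
      obtain ⟨a, ha⟩ := exists_mem_of_ne_zero this
      exact ⟨a, _, (cons_erase ha).symm⟩
    rw [card_cons] at hc
    obtain ⟨b, s2, rfl⟩ : ∃ a t, s1 = a ::ₘ t := by
      have : s1 ≠ 0 := by intro h; rw [h] at hc; simp at hc; omega
      obtain ⟨a, ha⟩ := exists_mem_of_ne_zero this
      exact ⟨a, _, (cons_erase ha).symm⟩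
    rw [card_cons] at hc
    have h1 := pair2 (hs a (by simp)) (hs b (by simp))
    have h2 := ih (s := s2) (fun n hn => hs n (by simp [hn])) (by omega)
    have h3 := h1.add h2
    rwa [add_assoc, singleton_add, singleton_add] at h3

theorem pairO' {s : Multiset ℕ} (h : Od s) (hc : card s % 2 = 0) : F s :=
  pairO (card s / 2) h (by omega)

/-- one, an odd size, an even size -/
theorem b5 {n e : ℕ} (hn : n % 2 = 1 ∧ 3 ≤ n) (he : e % 2 = 0 ∧ 2 ≤ e) :
    F (replicate 1 1 + ({n} + {e})) := by
  rcases le_total e n with h | h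
  · exact ⟨_, _, (ones 1).add ((G_ hn).add (B_ e)), by push_cast; omega, by push_cast; omega⟩
  · exact ⟨_, _, (ones 1).add ((B_ n).add (GE_ he)), by push_cast; omega, by push_cast; omega⟩

theorem b6 {a b c : ℕ} (ha : a % 2 = 1 ∧ 3 ≤ a) (ha5 : 5 ≤ a) (hb : b % 2 = 1 ∧ 3 ≤ b)
    (hc : c % 2 = 1 ∧ 3 ≤ c) : F (replicate 1 1 + ({a} + ({b} + {c}))) := by
  by_cases h1 : a ≤ b ∨ a ≤ c
  · exact ⟨_, _, (ones 1).add ((B_ a).add ((G_ hb).add (G_ hc))), by push_cast; omega,
      by push_cast; omega⟩
  · by_cases h2 : 5 ≤ c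
    · exact ⟨_, _, (ones 1).add ((G_ ha).add ((G_ hb).add (B_ c))), by push_cast; omega,
        by push_cast; omega⟩
    · by_cases h3 : 5 ≤ b
      · exact ⟨_, _, (ones 1).add ((G_ ha).add ((B_ b).add (G_ hc))), by push_cast; omega,
          by push_cast; omega⟩
      · exact ⟨_, _, (ones 1).add ((G_ ha).add ((B_ b).add (P_ hc))), by push_cast; omega,
          by push_cast; omega⟩

theorem b7 {a b c d : ℕ} (ha : a % 2 = 1 ∧ 3 ≤ a) (ha5 : 5 ≤ a) (hb : b % 2 = 1 ∧ 3 ≤ b)
    (hc : c % 2 = 1 ∧ 3 ≤ c) (hd : d % 2 = 1 ∧ 3 ≤ d) :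
    F (replicate 2 1 + ({a} + ({b} + ({c} + {d})))) := by
  by_cases h1 : c + d + 2 ≤ a + b
  · exact ⟨_, _, (ones 2).add ((G_ ha).add ((G_ hb).add ((B_ c).add (B_ d)))), by push_cast; omega,
      by push_cast; omega⟩
  by_cases h2 : a + b + 2 ≤ c + d
  · exact ⟨_, _, (ones 2).add ((B_ a).add ((B_ b).add ((G_ hc).add (G_ hd)))), by push_cast; omega,
      by push_cast; omega⟩
  by_cases h3 : b + d + 2 ≤ a + c
  · exact ⟨_, _, (ones 2).add ((G_ ha).add ((B_ b).add ((G_ hc).add (B_ d)))), by push_cast; omega,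
      by push_cast; omega⟩
  by_cases h4 : a + c + 2 ≤ b + d
  · exact ⟨_, _, (ones 2).add ((B_ a).add ((G_ hb).add ((B_ c).add (G_ hd)))), by push_cast; omega,
      by push_cast; omega⟩
  by_cases h5 : b + c + 2 ≤ a + d
  · exact ⟨_, _, (ones 2).add ((G_ ha).add ((B_ b).add ((B_ c).add (G_ hd)))), by push_cast; omega,
      by push_cast; omega⟩
  by_cases h6 : a + d + 2 ≤ b + c
  · exact ⟨_, _, (ones 2).add ((B_ a).add ((G_ hb).add ((G_ hc).add (B_ d)))), by push_cast; omega,
      by push_cast; omega⟩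
  · exact ⟨_, _, (ones 2).add ((G_ ha).add ((G_ hb).add ((B_ c).add (P_ hd)))), by push_cast; omega,
      by push_cast; omega⟩

theorem b8 {n a : ℕ} (hn : n % 2 = 1 ∧ 3 ≤ n) (ha : a % 2 = 1 ∧ 3 ≤ a) (ha5 : 5 ≤ a) :
    F (replicate 4 1 + ({n} + {a})) :=
  ⟨_, _, (ones 4).add ((P_ hn).add (G_ ha)), by norm_num, by push_cast; omega⟩

theorem b9 {a b c : ℕ} (ha : a % 2 = 1 ∧ 3 ≤ a) (ha5 : 5 ≤ a) (hb : b % 2 = 1 ∧ 3 ≤ b)
    (hc : c % 2 = 1 ∧ 3 ≤ c) : F (replicate 5 1 + ({a} + ({b} + {c}))) := by
  rcases le_total c b with h | h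
  · exact ⟨_, _, (ones 5).add ((G_ ha).add ((G_ hb).add (B_ c))), by push_cast; omega,
      by push_cast; omega⟩
  · exact ⟨_, _, (ones 5).add ((G_ ha).add ((B_ b).add (G_ hc))), by push_cast; omega,
      by push_cast; omega⟩

theorem b10 {a b : ℕ} (ha : a % 2 = 1 ∧ 3 ≤ a) (hb : b % 2 = 1 ∧ 3 ≤ b) (h : a ≠ b) :
    F (replicate 2 1 + ({a} + {b})) := by
  rcases lt_or_gt_of_ne h with h | h
  · exact ⟨_, _, (ones 2).add ((B_ a).add (G_ hb)), by push_cast; omega, by push_cast; omega⟩
  · exact ⟨_, _, (ones 2).add ((G_ ha).add (B_ b)), by push_cast; omega, by push_cast; omega⟩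

theorem split (s : Multiset ℕ) (k : ℕ) (h : k ≤ card s) :
    ∃ t u, s = t + u ∧ card t = k ∧ card u = card s - k := by
  induction s using Quotient.inductionOn with
  | h l =>
    refine ⟨(l.take k : Multiset ℕ), (l.drop k : Multiset ℕ), ?_, ?_, ?_⟩
    · rw [coe_add, List.take_append_drop]; rfl
    · have : k ≤ l.length := h
      simp [this]
    · simp

theorem split1 {s : Multiset ℕ} (h : 1 ≤ card s) : ∃ a t, s = {a} + t ∧ card t = card s - 1 := by
  obtain ⟨t, u, h1, h2, h3⟩ := split s 1 h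
  obtain ⟨a, rfl⟩ := card_eq_one.1 h2
  exact ⟨a, u, h1, h3⟩

theorem od_add {s t : Multiset ℕ} (h : Od (s + t)) : Od s ∧ Od t :=
  ⟨fun n hn => h n (mem_add.2 (Or.inl hn)), fun n hn => h n (mem_add.2 (Or.inr hn))⟩
theorem ev_add {s t : Multiset ℕ} (h : Ev (s + t)) : Ev s ∧ Ev t :=
  ⟨fun n hn => h n (mem_add.2 (Or.inl hn)), fun n hn => h n (mem_add.2 (Or.inr hn))⟩
theorem od_single {a : ℕ} (h : Od {a}) : a % 2 = 1 ∧ 3 ≤ a := h a (mem_singleton_self a)
theorem ev_single {a : ℕ} (h : Ev {a}) : a % 2 = 0 ∧ 2 ≤ a := h a (mem_singleton_self a)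

theorem suff (a : ℕ) {E O : Multiset ℕ} (hE : Ev E) (hO : Od O) (hpar : (a + card O) % 2 = 0)
    (h1 : a ≤ E.sum + O.sum) (h2 : ¬ (a = 1 ∧ E = 0 ∧ card O = 1))
    (h3 : ∀ n, ¬ (a = 2 ∧ E = 0 ∧ O = {n} + {n}))
    (h4 : E = 0 → (∀ n ∈ O, n = 3) → 3 ∣ a) : F (replicate a 1 + E + O) := by
  by_cases hA : 2 * card E + 3 * card O ≤ a
  · exact ⟨_, _, ((ones a).add (gE hE)).add (gO hO), by omega, by omega⟩
  by_cases hE0 : 1 ≤ card E
  · by_cases hae : a ≤ 2 * card E
    · obtain ⟨E1, E2, rfl, hc1, hc2⟩ := split E (a / 2) (by omega)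
      obtain ⟨hE1, hE2⟩ := ev_add hE
      rcases Nat.even_or_odd' a with ⟨j, rfl | rfl⟩
      · have := ((absE hE1).add (zE hE2)).add (pairO' hO (by omega))
        convert this using 1
        rw [show 2 * card E1 = 2 * j by omega]
        abel
      · rw [card_add] at *
        obtain ⟨e, E3, rfl, _⟩ := split1 (s := E2) (by omega)
        obtain ⟨n, O1, rfl, hO1⟩ := split1 (s := O) (by omega)
        obtain ⟨he, hE3⟩ := ev_add hE2
        obtain ⟨hn, hO'⟩ := od_add hO
        have := (((absE hE1).add (b5 (od_single hn) (ev_single he))).add (zE hE3)).add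
          (pairO' hO' (by rw [card_add] at hpar; simp only [card_singleton] at hpar; omega))
        convert this using 1
        rw [replicate_add, show 2 * card E1 = 2 * j by omega]
        abel
    · have hk : ∃ k r, a - 2 * card E = 3 * k + r ∧ r < 3 := ⟨(a - 2 * card E) / 3,
        (a - 2 * card E) % 3, by omega, by omega⟩
      obtain ⟨k, r, hkr, hr⟩ := hk
      obtain ⟨O1, O2, rfl, hc1, hc2⟩ := split O k (by omega)
      obtain ⟨hO1, hO2⟩ := od_add hO
      rw [card_add] at *
      obtain ⟨e, E1, rfl, hE1c⟩ := split1 hE0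
      rw [card_add, card_singleton] at *
      obtain ⟨he, hE1⟩ := ev_add hE
      have hr' : r = 0 ∨ r = 1 ∨ r = 2 := by omega
      rcases hr' with rfl | rfl | rfl
      · have := ((absE hE).add (absO hO1)).add (pairO' hO2 (by omega))
        convert this using 1
        rw [card_add, card_singleton, show a = 2 * (1 + card E1) + 3 * card O1 by omega,
          replicate_add]
        abel
      · obtain ⟨n, O3, rfl, hO3c⟩ := split1 (s := O2) (by omega)
        obtain ⟨hn, hO3⟩ := od_add hO2
        rw [card_add, card_singleton] at *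
        have := ((((absE hE1).add (zE he)).add (absO hO1)).add (absO hn)).add
          (pairO' hO3 (by omega))
        convert this using 1
        rw [card_singleton, show a = 2 * card E1 + 3 * card O1 + 3 * 1 by omega,
          replicate_add, replicate_add]
        abel
      · obtain ⟨n, O3, rfl, hO3c⟩ := split1 (s := O2) (by omega)
        rw [card_add, card_singleton] at *
        obtain ⟨m, O4, rfl, hO4c⟩ := split1 (s := O3) (by omega)
        rw [card_add, card_singleton] at *
        obtain ⟨hn, hO3⟩ := od_add hO2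
        obtain ⟨hm, hO4⟩ := od_add hO3
        have := ((((absE hE1).add (b5 (od_single hm) (ev_single he))).add (absO hO1)).add
          (absO hn)).add (pairO' hO4 (by omega))
        convert this using 1
        rw [card_singleton, show a = 2 * card E1 + 3 * card O1 + 3 * 1 + 1 by omega,
          replicate_add, replicate_add, replicate_add]
        abel
  · have hE00 : E = 0 := card_eq_zero.1 (by omega)
    subst hE00
    rw [add_zero]
    rw [card_zero] at *
    obtain ⟨k, r, hkr, hr⟩ : ∃ k r, a = 3 * k + r ∧ r < 3 := ⟨a / 3, a % 3, by omega, by omega⟩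
    by_cases hr0 : r = 0
    · subst hr0
      obtain ⟨O1, O2, rfl, hc1, hc2⟩ := split O k (by omega)
      obtain ⟨hO1, hO2⟩ := od_add hO
      rw [card_add] at *
      have := (absO hO1).add (pairO' hO2 (by omega))
      convert this using 1
      rw [show a = 3 * card O1 by omega]
      abel
    · have hM : ∃ M ∈ O, M ≠ 3 := by
        by_contra hcon
        push Not at hcon
        have := h4 rfl hcon
        omega
      obtain ⟨M, hMO, hM3⟩ := hM
      obtain ⟨O', rfl⟩ : ∃ O', O = {M} + O' := ⟨O.erase M, by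
        rw [singleton_add, cons_erase hMO]⟩
      obtain ⟨hMs, hO'⟩ := od_add hO
      have hMo := od_single hMs
      have hM5 : 5 ≤ M := by omega
      rw [card_add, card_singleton] at *
      have hr' : r = 1 ∨ r = 2 := by omega
      rcases hr' with rfl | rfl
      · by_cases hk2 : k + 3 ≤ 1 + card O'
        · obtain ⟨O1, O2, rfl, hc1, hc2⟩ := split O' k (by omega)
          obtain ⟨hO1, hO2⟩ := od_add hO'
          rw [card_add] at *
          obtain ⟨n, O3, rfl, hO3c⟩ := split1 (s := O2) (by omega)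
          rw [card_add, card_singleton] at *
          obtain ⟨m, O4, rfl, hO4c⟩ := split1 (s := O3) (by omega)
          rw [card_add, card_singleton] at *
          obtain ⟨hn, hO3⟩ := od_add hO2
          obtain ⟨hm, hO4⟩ := od_add hO3
          have := ((absO hO1).add (b6 hMo hM5 (od_single hn) (od_single hm))).add
            (pairO' hO4 (by omega))
          convert this using 1
          rw [show a = 3 * card O1 + 1 by omega, replicate_add]
          abel
        · have hk1 : 1 ≤ k := by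
            by_contra hcon
            exact h2 ⟨by omega, rfl, by omega⟩
          obtain ⟨n, O1, rfl, hO1c⟩ := split1 (s := O') (by omega)
          rw [card_add, card_singleton] at *
          obtain ⟨hn, hO1⟩ := od_add hO'
          have := (absO hO1).add (b8 (od_single hn) hMo hM5)
          convert this using 1
          rw [show a = 3 * card O1 + 4 by omega, replicate_add]
          abel
      · by_cases hk2 : k + 4 ≤ 1 + card O'
        · obtain ⟨O1, O2, rfl, hc1, hc2⟩ := split O' k (by omega)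
          obtain ⟨hO1, hO2⟩ := od_add hO'
          rw [card_add] at *
          obtain ⟨n, O3, rfl, hO3c⟩ := split1 (s := O2) (by omega)
          rw [card_add, card_singleton] at *
          obtain ⟨m, O4, rfl, hO4c⟩ := split1 (s := O3) (by omega)
          rw [card_add, card_singleton] at *
          obtain ⟨q, O5, rfl, hO5c⟩ := split1 (s := O4) (by omega)
          rw [card_add, card_singleton] at *
          obtain ⟨hn, hO3⟩ := od_add hO2
          obtain ⟨hm, hO4⟩ := od_add hO3
          obtain ⟨hq, hO5⟩ := od_add hO4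
          have := ((absO hO1).add (b7 hMo hM5 (od_single hn) (od_single hm) (od_single hq))).add
            (pairO' hO5 (by omega))
          convert this using 1
          rw [show a = 3 * card O1 + 2 by omega, replicate_add]
          abel
        · by_cases hk1 : 1 ≤ k
          · obtain ⟨n, O1, rfl, hO1c⟩ := split1 (s := O') (by omega)
            rw [card_add, card_singleton] at *
            obtain ⟨m, O2, rfl, hO2c⟩ := split1 (s := O1) (by omega)
            rw [card_add, card_singleton] at *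
            obtain ⟨hn, hO1⟩ := od_add hO'
            obtain ⟨hm, hO2⟩ := od_add hO1
            have := (absO hO2).add (b9 hMo hM5 (od_single hn) (od_single hm))
            convert this using 1
            rw [show a = 3 * card O2 + 5 by omega, replicate_add]
            abel
          · obtain ⟨n, O1, rfl, hO1c⟩ := split1 (s := O') (by omega)
            rw [card_add, card_singleton] at *
            have hO10 : O1 = 0 := card_eq_zero.1 (by omega)
            subst hO10
            obtain ⟨hn, _⟩ := od_add hO'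
            have ha2 : a = 2 := by omega
            subst ha2
            rw [add_zero]
            refine b10 hMo (od_single hn) ?_
            rintro rfl
            exact h3 M ⟨rfl, rfl, by rw [add_zero]⟩

/-- the criterion -/
def Crit (l : List ℕ) : Prop :=
  2 * l.count 1 ≤ l.sum ∧ (∀ n, ¬ l.Perm [1, n]) ∧ (∀ n, n % 2 = 1 → ¬ l.Perm [1, 1, n, n]) ∧
    ((∀ n ∈ l, n = 1 ∨ n = 3) → 3 ∣ l.count 1)

theorem R.y_le {s : Multiset ℕ} {x y : ℤ} (h : R s x y) :
    (∀ n ∈ s, 1 ≤ n) → y ≤ (s.sum : ℤ) - 2 * (s.count 1 : ℕ) := by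
  induction h with
  | zero => intro _; simp
  | @cons n s u v x y ho h ih =>
    intro hs
    have h1 := ih fun m hm => hs m (mem_cons_of_mem hm)
    have h2 := hs n (mem_cons_self n s)
    rw [sum_cons, count_cons]
    unfold Opt at ho
    split_ifs with h3 <;> omega

theorem R.mod3 {s : Multiset ℕ} {x y : ℤ} (h : R s x y) :
    (∀ n ∈ s, n = 1 ∨ n = 3) → x + y ≤ 0 ∧ (x + y = 0 → (3 : ℤ) ∣ x - (s.count 1 : ℕ)) := by
  induction h with
  | zero => intro _; simp
  | @cons n s u v x y ho h ih =>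
    intro hs
    have h1 := ih fun m hm => hs m (mem_cons_of_mem hm)
    have h2 := hs n (mem_cons_self n s)
    rw [count_cons]
    unfold Opt at ho
    split_ifs with h3
    · omega
    · omega

theorem crit_of_F {l : List ℕ} (hl : ∀ n ∈ l, 1 ≤ n) (he : l.sum % 2 = 0)
    (h : F (l : Multiset ℕ)) : Crit l := by
  obtain ⟨x, y, hR, hx, hy⟩ := h
  refine ⟨?_, ?_, ?_, ?_⟩
  · have := hR.y_le (by simpa using hl)
    rw [sum_coe, coe_count] at this
    omega
  · intro n hp
    have hs := hp.sum_eq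
    have hR' : R ((([1, n] : List ℕ)) : Multiset ℕ) x y := by
      rw [← coe_eq_coe.2 hp]; exact hR
    obtain ⟨u1, v1, x1, y1, o1, r1, e1, e1'⟩ := hR'.inv (n := 1) ([n] : List ℕ) rfl
    obtain ⟨u2, v2, x2, y2, o2, r2, e2, e2'⟩ := r1.inv (n := n) ([] : List ℕ) rfl
    obtain ⟨z1, z2⟩ := r2.zero_inv rfl
    simp only [List.sum_cons, List.sum_nil] at hs
    unfold Opt at o1 o2
    omega
  · intro n hn hp
    have hR' : R ((([1, 1, n, n] : List ℕ)) : Multiset ℕ) x y := by
      rw [← coe_eq_coe.2 hp]; exact hR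
    obtain ⟨u1, v1, x1, y1, o1, r1, e1, e1'⟩ := hR'.inv (n := 1) ([1, n, n] : List ℕ) rfl
    obtain ⟨u2, v2, x2, y2, o2, r2, e2, e2'⟩ := r1.inv (n := 1) ([n, n] : List ℕ) rfl
    obtain ⟨u3, v3, x3, y3, o3, r3, e3, e3'⟩ := r2.inv (n := n) ([n] : List ℕ) rfl
    obtain ⟨u4, v4, x4, y4, o4, r4, e4, e4'⟩ := r3.inv (n := n) ([] : List ℕ) rfl
    obtain ⟨z1, z2⟩ := r4.zero_inv rfl
    unfold Opt at o1 o2 o3 o4
    have p1 : v1 = -1 := by omega
    have p1' : u1 ≤ 1 := by omega
    have p2 : v2 = -1 := by omega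
    have p2' : u2 ≤ 1 := by omega
    clear o1 o2
    rcases o3 with o | o | o | o | o <;> rcases o4 with o' | o' | o' | o' | o' <;> omega
  · intro h13
    have := hR.mod3 (by simpa using h13)
    rw [coe_count] at this
    have hxy : x + y = 0 := by omega
    have := this.2 hxy
    have hx0 : x = 0 := by omega
    rw [hx0] at this
    omega

theorem decomp (s : Multiset ℕ) : s = replicate (s.count 1) 1 + s.filter (fun n => n % 2 = 0) +
    s.filter (fun n => ¬ n % 2 = 0 ∧ ¬ n = 1) := by
  have h1 : s = s.filter (fun n => n % 2 = 0) + s.filter (fun n => ¬ n % 2 = 0) :=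
    (filter_add_not _ s).symm
  have h2 : s.filter (fun n => ¬ n % 2 = 0) = replicate (s.count 1) 1 +
      s.filter (fun n => ¬ n % 2 = 0 ∧ ¬ n = 1) := by
    conv_lhs => rw [← filter_add_not (fun n => n = 1) (s.filter (fun n => ¬ n % 2 = 0))]
    congr 1
    · rw [filter_filter, ← filter_eq']
      apply filter_congr
      intro n _
      omega
    · rw [filter_filter]
      apply filter_congr
      intro n _
      tauto
  conv_lhs => rw [h1, h2]
  abel

theorem F_of_crit {l : List ℕ} (hl : ∀ n ∈ l, 1 ≤ n) (he : l.sum % 2 = 0) (h : Crit l) :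
    F (l : Multiset ℕ) := by
  obtain ⟨c1, c2, c3, c4⟩ := h
  set s : Multiset ℕ := (l : Multiset ℕ) with hs
  set a := s.count 1 with ha
  set E := s.filter (fun n => n % 2 = 0) with hE
  set O := s.filter (fun n => ¬ n % 2 = 0 ∧ ¬ n = 1) with hO
  have hd : s = replicate a 1 + E + O := decomp s
  have hEv : Ev E := by
    intro n hn
    rw [hE, mem_filter] at hn
    have := hl n (by simpa [hs] using hn.1)
    omega
  have hOd : Od O := by
    intro n hn
    rw [hO, mem_filter] at hn
    have := hl n (by simpa [hs] using hn.1)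
    omega
  have hsum : l.sum = a + E.sum + O.sum := by
    have : s.sum = l.sum := sum_coe l
    rw [← this, hd, sum_add, sum_add, sum_replicate]
    simp
  have ha' : l.count 1 = a := by rw [ha, hs, coe_count]
  have hEs := sumE hEv
  have hOs := sumO hOd
  rw [ha'] at c1 c4
  rw [hd]
  have hperm : ∀ l' : List ℕ, s = (l' : Multiset ℕ) → l.Perm l' := fun l' h' => coe_eq_coe.1 h'
  refine suff a hEv hOd (by omega) (by omega) ?_ ?_ ?_
  · rintro ⟨h1, h2, h3⟩
    obtain ⟨n, hn⟩ := card_eq_one.1 h3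
    refine c2 n (hperm _ ?_)
    rw [hd, h1, h2, hn]
    rfl
  · rintro n ⟨h1, h2, h3⟩
    refine c3 n ?_ (hperm _ ?_)
    · exact (hOd n (by rw [h3]; simp)).1
    · rw [hd, h1, h2, h3]
      rfl
  · intro h1 h2
    refine c4 ?_
    intro n hn
    have hn' : n ∈ s := by simpa [hs] using hn
    rw [hd, h1, mem_add, mem_add] at hn'
    rcases hn' with (h | h) | h
    · exact Or.inl (eq_of_mem_replicate h)
    · simp at h
    · exact Or.inr (h2 n h)

end Q325.Maj
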