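import Mathlib.Combinatorics.SimpleGraph.Basic
import Mathlib.Combinatorics.SimpleGraph.Partition
import Mathlib.Combinatorics.SimpleGraph.Coloring.Vertex
import Mathlib.Algebra.BigOperators.Group.Finset.Basic
import Mathlib.Data.Fintype.Sigma
import Mathlib.Data.Fintype.BigOperators
import Mathlib.Tactic

/-!
Majority dominating functions of complete multipartite graphs.
-/

set_option autoImplicit false

namespace Q325.Maj

open Classical in
/-- `f` is a majority dominating function of `G`: it has values in `{-1, 1}` and at least half of
the vertices `v` satisfy `f (N[v]) ≥ 1`. -/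
def IsMDF {V : Type} [Fintype V] (G : SimpleGraph V) (f : V → ℤ) : Prop :=
  (∀ v, f v = -1 ∨ f v = 1) ∧
    Fintype.card V ≤
      2 * (Finset.univ.filter fun v => 1 ≤ ∑ u with u = v ∨ G.Adj v u, f u).card

/-- The vertices of the complete multipartite graph with parts of the sizes in the list `l`. -/
abbrev Vert (l : List ℕ) : Type := Σ i : Fin l.length, Fin (l.get i)

/-- The complete multipartite graph with parts of the sizes in the list `l`. -/
def KG (l : List ℕ) : SimpleGraph (Vert l) where
  Adj u v := u.1 ≠ v.1
  symm := ⟨fun _ _ h => h.symm⟩
  loopless := ⟨fun _ h => h rfl⟩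

end Q325.Maj
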