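import Pool.Agent.Q325.Maj.Defs
import Pool.Agent.Q325.Maj.Comb

/-!
From majority dominating functions to classes of parts, and back.
-/

set_option autoImplicit false

open Finset

namespace Q325.Maj

variable {ι : Type} [Fintype ι] [DecidableEq ι] {n : ι → ℕ}

/-- the weight of a part -/
def ws (f : (Σ i, Fin (n i)) → ℤ) (i : ι) : ℤ := ∑ j, f ⟨i, j⟩

/-- the number of satisfied vertices of a part, for total weight `w` -/
def cs (f : (Σ i, Fin (n i)) → ℤ) (w : ℤ) (i : ι) : ℕ :=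
  (univ.filter fun j : Fin (n i) => 1 ≤ w - ws f i + f ⟨i, j⟩).card

theorem sum_ws (f : (Σ i, Fin (n i)) → ℤ) : ∑ v, f v = ∑ i, ws f i := by
  rw [Fintype.sum_sigma]
  rfl

theorem nbhd (f : (Σ i, Fin (n i)) → ℤ) (v : Σ i, Fin (n i)) (P : (Σ i, Fin (n i)) → Prop)
    [DecidablePred P] (hP : ∀ u, P u ↔ u = v ∨ v.1 ≠ u.1) :
    ∑ u with P u, f u = (∑ u, f u) - ws f v.1 + f v := by
  have h1 : ∑ u with P u, f u = ∑ u, (f u - (if u.1 = v.1 then f u else 0) +
      (if u = v then f u else 0)) := by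
    rw [sum_filter]
    refine sum_congr rfl fun u _ => ?_
    by_cases h : u = v
    · subst h
      simp [hP]
    · by_cases h' : u.1 = v.1
      · have : ¬ P u := by rw [hP]; rintro (h2 | h2); exacts [h h2, h2 h'.symm]
        simp [this, h, h']
      · have : P u := (hP u).2 (Or.inr (Ne.symm h'))
        simp [this, h, h']
  rw [h1, sum_add_distrib, sum_sub_distrib]
  congr 1
  · congr 1
    rw [Fintype.sum_sigma]
    unfold ws
    rw [Finset.sum_eq_single v.1]
    · simp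
    · intro i _ hi
      simp [hi]
    · intro h
      exact absurd (mem_univ _) h
  · simp

theorem count_cs (f : (Σ i, Fin (n i)) → ℤ) (w : ℤ) :
    (univ.filter fun v : Σ i, Fin (n i) => 1 ≤ w - ws f v.1 + f v).card = ∑ i, cs f w i := by
  rw [card_filter, Fintype.sum_sigma]
  refine sum_congr rfl fun i _ => ?_
  unfold cs
  rw [card_filter]

/-- a part with values in `{-1, 1}` -/
theorem part {m : ℕ} {g : Fin m → ℤ} (hg : ∀ j, g j = -1 ∨ g j = 1) :
    ∑ j, g j = 2 * ((univ.filter fun j => g j = 1).card : ℤ) - m := by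
  have h1 : ∀ j, g j = 2 * (if g j = 1 then 1 else 0) - 1 := by
    intro j
    rcases hg j with h | h <;> simp [h]
  calc ∑ j, g j = ∑ j, (2 * (if g j = 1 then 1 else 0) - 1) := sum_congr rfl fun j _ => h1 j
    _ = _ := by
      rw [sum_sub_distrib, ← mul_sum, card_filter]
      simp

theorem cnt_all {m : ℕ} {g : Fin m → ℤ} (hg : ∀ j, g j = -1 ∨ g j = 1) {t : ℤ} (ht : 2 ≤ t) :
    (univ.filter fun j => 1 ≤ t + g j).card = m := by
  rw [filter_true_of_mem, card_univ, Fintype.card_fin]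
  intro j _
  rcases hg j with h | h <;> rw [h] <;> omega

theorem cnt_mid {m : ℕ} {g : Fin m → ℤ} (hg : ∀ j, g j = -1 ∨ g j = 1) {t : ℤ} (ht : 0 ≤ t)
    (ht' : t ≤ 1) :
    (univ.filter fun j => 1 ≤ t + g j).card = (univ.filter fun j => g j = 1).card := by
  congr 1
  ext j
  simp only [mem_filter, mem_univ, true_and]
  rcases hg j with h | h <;> rw [h] <;> omega

theorem cnt_none {m : ℕ} {g : Fin m → ℤ} (hg : ∀ j, g j = -1 ∨ g j = 1) {t : ℤ} (ht : t < 0) :
    (univ.filter fun j => 1 ≤ t + g j).card = 0 := by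
  rw [card_eq_zero, filter_eq_empty_iff]
  intro j _
  rcases hg j with h | h <;> rw [h] <;> omega

/-- the classes -/
theorem classify {m : ℕ} (hm : 1 ≤ m) {g : Fin m → ℤ} (hg : ∀ j, g j = -1 ∨ g j = 1) {w : ℤ}
    (hw : w ≤ 0) (hw2 : w % 2 = 0) :
    ∃ x y : ℤ, Opt m x y ∧
      2 * ((univ.filter fun j => 1 ≤ (w - ∑ j, g j) + g j).card : ℤ) - m ≤ y ∧
      ∑ j, g j ≤ x ∧ (∑ j, g j ≤ x + w ∨ y = -m) := by
  have hs := part hg
  have hp : (univ.filter fun j => g j = 1).card ≤ m := by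
    refine (card_filter_le _ _).trans ?_
    simp
  set p := (univ.filter fun j => g j = 1).card with hpd
  rcases lt_trichotomy (w - ∑ j, g j) 0 with h | h | h
  · rw [cnt_none hg h]
    exact ⟨m, -m, Or.inl ⟨rfl, rfl⟩, by push_cast; omega, by omega, Or.inr rfl⟩
  · rw [cnt_mid hg (by omega) (by omega), ← hpd]
    exact ⟨0, 0, Or.inr (Or.inl ⟨by omega, rfl, rfl⟩), by omega, by omega, Or.inl (by omega)⟩
  · by_cases h1 : w - ∑ j, g j = 1
    · rw [cnt_mid hg (by omega) (by omega), ← hpd]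
      exact ⟨-1, -1, Or.inr (Or.inr (Or.inl ⟨by omega, rfl, rfl⟩)), by omega, by omega,
        Or.inl (by omega)⟩
    · rw [cnt_all hg (by omega)]
      by_cases hpar : m % 2 = 0
      · exact ⟨-2, m, Or.inr (Or.inr (Or.inr (Or.inl ⟨hpar, by omega, rfl, rfl⟩))), by omega,
          by omega, Or.inl (by omega)⟩
      · exact ⟨-3, m, Or.inr (Or.inr (Or.inr (Or.inr ⟨by omega, by omega, rfl, rfl⟩))), by omega,
          by omega, Or.inl (by omega)⟩

/-- feasibility with indices -/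
def FI (n : ι → ℕ) : Prop :=
  ∃ x y : ι → ℤ, (∀ i, Opt (n i) (x i) (y i)) ∧ 0 ≤ ∑ i, x i ∧ 0 ≤ ∑ i, y i

theorem fi_of_mdf [Nonempty ι] (hn : ∀ i, 1 ≤ n i) {f : (Σ i, Fin (n i)) → ℤ}
    (hf : ∀ v, f v = -1 ∨ f v = 1) {w : ℤ} (hw : ∑ i, ws f i = w) (hw0 : w ≤ 0) (hw2 : w % 2 = 0)
    (hc : ∑ i, n i ≤ 2 * ∑ i, cs f w i) : FI n := by
  have h : ∀ i, ∃ x y : ℤ, Opt (n i) x y ∧ 2 * (cs f w i : ℤ) - n i ≤ y ∧ ws f i ≤ x ∧
      (ws f i ≤ x + w ∨ y = -n i) := fun i =>
    classify (hn i) (g := fun j => f ⟨i, j⟩) (fun j => hf _) hw0 hw2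
  choose x y h1 h2 h3 h4 using h
  have hy : 0 ≤ ∑ i, y i := by
    have h5 : ∑ i, (2 * (cs f w i : ℤ) - n i) ≤ ∑ i, y i := sum_le_sum fun i _ => h2 i
    rw [sum_sub_distrib, ← mul_sum] at h5
    have h6 : ((∑ i, n i : ℕ) : ℤ) ≤ ((2 * ∑ i, cs f w i : ℕ) : ℤ) := by exact_mod_cast hc
    push_cast at h6
    linarith
  refine ⟨x, y, h1, ?_, hy⟩
  obtain ⟨i0, hi0⟩ : ∃ i, ws f i ≤ x i + w := by
    by_contra hcon
    push Not at hcon
    have h5 : ∀ i, y i = -n i := fun i => (h4 i).resolve_left (not_le.2 (hcon i))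
    have h6 : ∑ i, y i = -∑ i, (n i : ℤ) := by
      rw [← sum_neg_distrib]
      exact sum_congr rfl fun i _ => h5 i
    have h7 : (1 : ℤ) ≤ ∑ i, (n i : ℤ) := by
      obtain ⟨i⟩ := ‹Nonempty ι›
      refine le_trans ?_ (single_le_sum (f := fun i => (n i : ℤ)) (fun i _ => by positivity)
        (mem_univ i))
      exact_mod_cast hn i
    omega
  have h5 : ∑ i, ws f i ≤ ∑ i, (x i + if i = i0 then w else 0) := by
    refine sum_le_sum fun i _ => ?_
    split_ifs with h
    · rw [h]; exact hi0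
    · rw [add_zero]; exact h3 i
  rw [sum_add_distrib] at h5
  simp only [sum_ite_eq', mem_univ, if_true] at h5
  omega

/-- lowering -/
theorem lower (q : ι → ℕ) (s : Finset ι) : ∀ h, h ≤ ∑ i ∈ s, q i →
    ∃ p : ι → ℕ, (∀ i, p i ≤ q i) ∧ ∑ i ∈ s, p i = h := by
  induction s using Finset.induction_on with
  | empty =>
    intro h hh
    exact ⟨q, fun _ => le_rfl, by simpa using (by simpa using hh : h = 0).symm⟩
  | insert a s ha ih =>
    intro h hh
    rw [sum_insert ha] at hh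
    obtain ⟨p, hp, hps⟩ := ih (min h (∑ i ∈ s, q i)) (min_le_right _ _)
    refine ⟨fun i => if i = a then h - min h (∑ i ∈ s, q i) else p i, fun i => ?_, ?_⟩
    · dsimp only
      split_ifs with h1
      · rw [h1]; omega
      · exact hp i
    · rw [sum_insert ha, if_pos rfl]
      have : ∑ i ∈ s, (if i = a then h - min h (∑ i ∈ s, q i) else p i) = ∑ i ∈ s, p i :=
        sum_congr rfl fun i hi => if_neg (by rintro rfl; exact ha hi)
      rw [this, hps]
      omega

/-- the function with `p i` values one in part `i` -/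
def fp (p : ι → ℕ) (v : Σ i, Fin (n i)) : ℤ := if (v.2 : ℕ) < p v.1 then 1 else -1

theorem fp_val (p : ι → ℕ) (v : Σ i, Fin (n i)) : fp p v = -1 ∨ fp p v = 1 := by
  unfold fp; split_ifs <;> simp

theorem fp_one (p : ι → ℕ) (i : ι) (hp : p i ≤ n i) :
    (univ.filter fun j : Fin (n i) => fp p ⟨i, j⟩ = 1).card = p i := by
  have : (univ.filter fun j : Fin (n i) => fp p ⟨i, j⟩ = 1) =
      univ.filter fun j : Fin (n i) => (j : ℕ) < p i := by
    ext j
    simp only [mem_filter, mem_univ, true_and, fp]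
    split_ifs with h <;> simp [h]
  rw [this, Fin.card_filter_val_lt]
  exact min_eq_right hp

theorem fp_ws (p : ι → ℕ) (i : ι) (hp : p i ≤ n i) : ws (n := n) (fp p) i = 2 * p i - n i := by
  unfold ws
  rw [part (fun j => fp_val p _), fp_one p i hp]

theorem mdf_of_fi (hpar : (∑ i, n i) % 2 = 0) (h : FI n) :
    ∃ p : ι → ℕ, (∀ i, p i ≤ n i) ∧ ∑ i, ws (n := n) (fp p) i = 0 ∧
      ∑ i, n i ≤ 2 * ∑ i, cs (n := n) (fp p) 0 i := by
  obtain ⟨x, y, h1, h2, h3⟩ := h
  have hq : ∀ i, ∃ q : ℕ, (2 * q : ℤ) = n i + x i := by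
    intro i
    have := h1 i
    unfold Opt at this
    refine ⟨((n i + x i) / 2).toNat, ?_⟩
    omega
  choose q hq using hq
  have hqn : ∀ i, q i ≤ n i := by
    intro i
    have := h1 i
    have := hq i
    unfold Opt at *
    omega
  have hsq : ∑ i, n i ≤ 2 * ∑ i, q i := by
    have h5 : ∑ i, (2 * q i : ℤ) = ∑ i, ((n i : ℤ) + x i) := sum_congr rfl fun i _ => hq i
    rw [sum_add_distrib, ← mul_sum] at h5
    have : ((∑ i, n i : ℕ) : ℤ) ≤ ((2 * ∑ i, q i : ℕ) : ℤ) := by push_cast; linarith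
    exact_mod_cast this
  obtain ⟨p, hp, hps⟩ := lower q univ ((∑ i, n i) / 2) (by omega)
  have hpn : ∀ i, p i ≤ n i := fun i => (hp i).trans (hqn i)
  refine ⟨p, hpn, ?_, ?_⟩
  · rw [sum_congr rfl fun i _ => fp_ws p i (hpn i), sum_sub_distrib, ← mul_sum]
    have : ((∑ i, p i : ℕ) : ℤ) * 2 = ((∑ i, n i : ℕ) : ℤ) := by
      rw [hps]; omega
    push_cast at this
    linarith
  · have hcs : ∀ i, y i ≤ 2 * (cs (n := n) (fp p) 0 i : ℤ) - n i := by
      intro i
      have hw := fp_ws (n := n) p i (hpn i)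
      have ho := h1 i
      have hqi := hq i
      have hpi := hp i
      have hni := hpn i
      unfold Opt at ho
      unfold cs
      by_cases hbig : 2 * (p i : ℤ) - n i ≤ -2
      · have := cnt_all (g := fun j : Fin (n i) => fp (n := n) p ⟨i, j⟩) (fun j => fp_val p _)
          (t := 0 - ws (n := n) (fp p) i) (by rw [hw]; omega)
        rw [this]
        omega
      · by_cases hmid : 2 * (p i : ℤ) - n i ≤ 0
        · have := cnt_mid (g := fun j : Fin (n i) => fp (n := n) p ⟨i, j⟩) (fun j => fp_val p _)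
            (t := 0 - ws (n := n) (fp p) i) (by rw [hw]; omega) (by rw [hw]; omega)
          rw [this, fp_one p i hni]
          omega
        · omega
    have h5 : ∑ i, y i ≤ ∑ i, (2 * (cs (n := n) (fp p) 0 i : ℤ) - n i) := sum_le_sum fun i _ => hcs i
    rw [sum_sub_distrib, ← mul_sum] at h5
    have : ((∑ i, n i : ℕ) : ℤ) ≤ ((2 * ∑ i, cs (n := n) (fp p) 0 i : ℕ) : ℤ) := by
      push_cast; linarith
    exact_mod_cast this

/-- the number of odd parts -/
def od (n : ι → ℕ) : ℕ := ∑ i, n i % 2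

/-- nearly balanced functions -/
theorem balanced (w : ℕ) (hw : (w + ∑ i, n i) % 2 = 0) (hwo : w ≤ od n) (h1 : 1 ≤ w ∨ od n = 0) :
    ∃ p : ι → ℕ, (∀ i, p i ≤ n i) ∧ ∑ i, ws (n := n) (fp p) i = w ∧
      ∑ i, n i ≤ 2 * ∑ i, cs (n := n) (fp p) w i := by
  have hsum : ∑ i, n i = 2 * ∑ i, n i / 2 + od n := by
    unfold od
    rw [mul_sum, ← sum_add_distrib]
    exact sum_congr rfl fun i _ => (Nat.div_add_mod _ _).symm
  obtain ⟨r, hr, hrs⟩ := lower (fun i => n i % 2) univ ((w + od n) / 2) (by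
    change _ ≤ od n
    omega)
  set p : ι → ℕ := fun i => n i / 2 + r i with hpd
  have hpn : ∀ i, p i ≤ n i := by
    intro i
    have := hr i
    simp only [hpd]
    omega
  refine ⟨p, hpn, ?_, ?_⟩
  · rw [sum_congr rfl fun i _ => fp_ws p i (hpn i), sum_sub_distrib, ← mul_sum]
    have h2 : ∑ i, p i = ∑ i, n i / 2 + (w + od n) / 2 := by
      simp only [hpd]
      rw [sum_add_distrib, hrs]
    have h3 : 2 * ((∑ i, p i : ℕ) : ℤ) - ((∑ i, n i : ℕ) : ℤ) = w := by
      rw [h2, hsum]; omega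
    push_cast at h3
    linarith
  · rw [mul_sum]
    refine sum_le_sum fun i _ => ?_
    have hw' := fp_ws (n := n) p i (hpn i)
    have hri := hr i
    have hpi : p i = n i / 2 + r i := rfl
    have hodd : n i % 2 = 1 → 1 ≤ w := by
      intro h
      rcases h1 with h1 | h1
      · exact h1
      · exfalso
        have : n i % 2 ≤ od n := single_le_sum (f := fun i => n i % 2) (fun i _ => Nat.zero_le _)
          (mem_univ i)
        omega
    unfold cs
    by_cases hneg : 2 * (p i : ℤ) - n i = -1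
    · have := cnt_all (g := fun j : Fin (n i) => fp (n := n) p ⟨i, j⟩) (fun j => fp_val p _)
        (t := w - ws (n := n) (fp p) i) (by rw [hw']; omega)
      rw [this]
      omega
    · by_cases hbig : 2 ≤ (w : ℤ) - ws (n := n) (fp p) i
      · have := cnt_all (g := fun j : Fin (n i) => fp (n := n) p ⟨i, j⟩) (fun j => fp_val p _) hbig
        rw [this]
        omega
      · have := cnt_mid (g := fun j : Fin (n i) => fp (n := n) p ⟨i, j⟩) (fun j => fp_val p _)
          (t := w - ws (n := n) (fp p) i) (by rw [hw']; omega) (by omega)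
        rw [this, fp_one p i (hpn i)]
        omega

end Q325.Maj
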