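import Pool.Agent.Q325.Maj.Graph

/-!
The criterion for majority dominating functions of small weight.
-/

set_option autoImplicit false

open Finset

namespace Q325.Maj

theorem R_of_fun {ι : Type} [DecidableEq ι] (n : ι → ℕ) (x y : ι → ℤ) (s : Finset ι)
    (h : ∀ i ∈ s, Opt (n i) (x i) (y i)) : R (s.val.map n) (∑ i ∈ s, x i) (∑ i ∈ s, y i) := by
  induction s using Finset.induction_on with
  | empty => simpa using R.zero
  | insert a s ha ih =>
    rw [sum_insert ha, sum_insert ha, insert_val_of_notMem ha, Multiset.map_cons]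
    exact R.cons (h a (mem_insert_self a s)) (ih fun i hi => h i (mem_insert_of_mem hi))

theorem fun_of_R {ι : Type} [DecidableEq ι] (n : ι → ℕ) (s : Finset ι) :
    ∀ X Y : ℤ, R (s.val.map n) X Y →
      ∃ x y : ι → ℤ, (∀ i ∈ s, Opt (n i) (x i) (y i)) ∧ ∑ i ∈ s, x i = X ∧ ∑ i ∈ s, y i = Y := by
  induction s using Finset.induction_on with
  | empty =>
    intro X Y h
    obtain ⟨h1, h2⟩ := h.zero_inv (by simp)
    exact ⟨0, 0, by simp, by simp [h1], by simp [h2]⟩
  | insert a s ha ih =>
    intro X Y h
    rw [insert_val_of_notMem ha, Multiset.map_cons] at h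
    obtain ⟨u, v, X', Y', ho, hR, hX, hY⟩ := h.inv _ rfl
    obtain ⟨x, y, h1, h2, h3⟩ := ih X' Y' hR
    have hne : ∀ i ∈ s, i ≠ a := fun i hi h' => ha (h' ▸ hi)
    refine ⟨fun i => if i = a then u else x i, fun i => if i = a then v else y i, ?_, ?_, ?_⟩
    · intro i hi
      rcases mem_insert.1 hi with rfl | hi
      · simpa using ho
      · simpa [hne i hi] using h1 i hi
    · rw [sum_insert ha, if_pos rfl, hX, ← h2]
      congr 1
      exact sum_congr rfl fun i hi => if_neg (hne i hi)
    · rw [sum_insert ha, if_pos rfl, hY, ← h3]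
      congr 1
      exact sum_congr rfl fun i hi => if_neg (hne i hi)

theorem map_get (l : List ℕ) : (univ : Finset (Fin l.length)).val.map l.get = (l : Multiset ℕ) := by
  rw [Fin.univ_val_map, List.ofFn_get]

theorem fi_iff (l : List ℕ) : FI (fun i : Fin l.length => l.get i) ↔ F (l : Multiset ℕ) := by
  constructor
  · rintro ⟨x, y, h1, h2, h3⟩
    refine ⟨_, _, ?_, h2, h3⟩
    have := R_of_fun l.get x y univ fun i _ => h1 i
    rwa [map_get] at this
  · rintro ⟨X, Y, h, hX, hY⟩
    rw [← map_get] at h
    obtain ⟨x, y, h1, h2, h3⟩ := fun_of_R l.get univ X Y h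
    exact ⟨x, y, fun i => h1 i (mem_univ i), h2 ▸ hX, h3 ▸ hY⟩

theorem sum_get (l : List ℕ) : ∑ i : Fin l.length, l.get i = l.sum := by
  rw [← List.sum_ofFn, List.ofFn_get]

theorem isMDF_iff (l : List ℕ) (f : Vert l → ℤ) :
    IsMDF (KG l) f ↔ (∀ v, f v = -1 ∨ f v = 1) ∧
      l.sum ≤ 2 * ∑ i, cs (n := fun i : Fin l.length => l.get i) f (∑ i, ws f i) i := by
  classical
  unfold IsMDF
  have h1 : Fintype.card (Vert l) = l.sum := by
    rw [Fintype.card_sigma]
    simp only [Fintype.card_fin]
    exact sum_get l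
  have key : ∀ (v : Vert l) (inst : DecidablePred fun u : Vert l => u = v ∨ (KG l).Adj v u),
      ∑ u ∈ @Finset.filter _ (fun u : Vert l => u = v ∨ (KG l).Adj v u) inst univ, f u =
        (∑ i, ws f i) - ws f v.1 + f v := by
    intro v inst
    rw [← sum_ws]
    exact @nbhd _ _ _ _ f v _ inst (fun u => Iff.rfl)
  rw [h1]
  refine and_congr_right fun _ => ?_
  rw [← count_cs f]
  simp only [key]

/-- Majority dominating functions of weight at most `k` of complete multipartite graphs. -/
theorem maj_iff {l : List ℕ} (hne : l ≠ []) (hl : ∀ n ∈ l, 1 ≤ n) {k : ℕ} (hk : 1 ≤ k) :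
    (∃ f : Vert l → ℤ, IsMDF (KG l) f ∧ ∑ v, f v ≤ k) ↔
      (2 ≤ k ∨ l.sum % 2 = 1 ∨ Crit l) := by
  have hn : ∀ i : Fin l.length, 1 ≤ l.get i := fun i => hl _ (List.get_mem l i)
  have hlen : 0 < l.length := List.length_pos_iff.2 hne
  have : Nonempty (Fin l.length) := ⟨⟨0, hlen⟩⟩
  have build : ∀ (p : Fin l.length → ℕ) (w : ℤ), (∀ i, p i ≤ l.get i) →
      ∑ i, ws (n := fun i : Fin l.length => l.get i) (fp p) i = w → w ≤ k →
      ∑ i : Fin l.length, l.get i ≤ 2 * ∑ i, cs (n := fun i : Fin l.length => l.get i) (fp p) w i →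
      ∃ f : Vert l → ℤ, IsMDF (KG l) f ∧ ∑ v, f v ≤ k := by
    intro p w _ hw hwk hc
    refine ⟨fp p, (isMDF_iff l _).2 ⟨fun v => fp_val p v, ?_⟩, ?_⟩
    · rw [hw, ← sum_get]; exact hc
    · rw [sum_ws, hw]; exact hwk
  constructor
  · rintro ⟨f, hf, hfk⟩
    rw [isMDF_iff] at hf
    rw [sum_ws] at hfk
    by_contra hcon
    push Not at hcon
    obtain ⟨h1, h2, h3⟩ := hcon
    have hpar : (∑ i, ws (n := fun i : Fin l.length => l.get i) f i) % 2 = 0 := by
      have h4 : ∀ i, ∃ a : ℤ, ws (n := fun i : Fin l.length => l.get i) f i = 2 * a - l.get i :=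
        fun i => ⟨_, part (g := fun j => f ⟨i, j⟩) fun j => hf.1 _⟩
      choose a ha using h4
      have h5 : ∑ i, ws (n := fun i : Fin l.length => l.get i) f i = 2 * ∑ i, a i - (l.sum : ℤ) := by
        rw [sum_congr rfl fun i _ => ha i, sum_sub_distrib, ← mul_sum, ← sum_get]
        push_cast
        rfl
      rw [h5]
      omega
    have h6 : FI (fun i : Fin l.length => l.get i) :=
      fi_of_mdf hn hf.1 rfl (by omega) hpar (by rw [sum_get]; exact hf.2)
    exact h3 (crit_of_F hl (by omega) ((fi_iff l).1 h6))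
  · intro h
    by_cases hodd : l.sum % 2 = 1
    · obtain ⟨p, h1, h2, h3⟩ := balanced (n := fun i : Fin l.length => l.get i) 1
        (by rw [sum_get]; omega) (by
          by_contra hcon
          have h0 : od (fun i : Fin l.length => l.get i) = 0 := by omega
          have : l.sum % 2 = 0 := by
            rw [← sum_get]
            unfold od at h0
            rw [Finset.sum_nat_mod, sum_congr rfl fun i hi => (sum_eq_zero_iff.1 h0) i hi]
            simp
          omega) (Or.inl le_rfl)
      exact build p _ h1 h2 (by push_cast; omega) h3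
    · by_cases hk2 : 2 ≤ k
      · by_cases h0 : od (fun i : Fin l.length => l.get i) = 0
        · obtain ⟨p, h1, h2, h3⟩ := balanced (n := fun i : Fin l.length => l.get i) 0
            (by rw [sum_get]; omega) (Nat.zero_le _) (Or.inr h0)
          exact build p _ h1 h2 (by push_cast; omega) h3
        · obtain ⟨p, h1, h2, h3⟩ := balanced (n := fun i : Fin l.length => l.get i) 2
            (by rw [sum_get]; omega) (by
              have : od (fun i : Fin l.length => l.get i) % 2 = l.sum % 2 := by
                rw [← sum_get]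
                unfold od
                exact (Finset.sum_nat_mod _ _ _).symm
              omega) (Or.inl (by norm_num))
          exact build p _ h1 h2 (by push_cast; omega) h3
      · have hc : Crit l := by
          rcases h with h | h | h
          · exact absurd h hk2
          · exact absurd h hodd
          · exact h
        have hF := (fi_iff l).2 (F_of_crit hl (by omega) hc)
        obtain ⟨p, h1, h2, h3⟩ := mdf_of_fi (n := fun i : Fin l.length => l.get i)
          (by rw [sum_get]; omega) hF
        exact build p _ h1 h2 (by positivity) h3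

end Q325.Maj
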