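import Pool.Agent.Q325.Maj.Main
import Pool.Agent.NPC.Dec
import Pool.Agent.NPC.Num
import Pool.Agent.H612.CollectPoly

/-!
The criterion is tested in polynomial time.
-/

set_option autoImplicit false

open Pool.Agent.NPC

namespace Q325.Maj

/-- the test of the exceptional instances -/
def exc4 (l : List ℕ) (n : ℕ) : Bool :=
  decide (n % 2 = 1) && (decide (l.length = 4) && (decide (l.count 1 = 2) &&
    (decide (l.count n = 2) && !(decide (n = 1)))))

/-- the test of the criterion -/
def critb (l : List ℕ) : Bool :=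
  decide (2 * l.count 1 ≤ l.sum) && (!(decide (l.length = 2) && decide (1 ≤ l.count 1)) &&
    (!(l.any fun n => exc4 l n) &&
      (!(l.all fun n => decide (n = 1) || decide (n = 3)) || decide (l.count 1 % 3 = 0))))

theorem perm2_iff (l : List ℕ) : (∃ n, l.Perm [1, n]) ↔ l.length = 2 ∧ 1 ≤ l.count 1 := by
  constructor
  · rintro ⟨n, hn⟩
    refine ⟨hn.length_eq, ?_⟩
    rw [hn.count_eq]
    simp
  · rintro ⟨h1, h2⟩
    have hm : 1 ∈ l := List.count_pos_iff.1 h2
    have hp := List.perm_cons_erase hm
    have hl : (l.erase 1).length = 1 := by rw [List.length_erase_of_mem hm, h1]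
    obtain ⟨n, hn⟩ := List.length_eq_one_iff.1 hl
    exact ⟨n, by rw [hn] at hp; exact hp⟩

theorem perm4_iff (l : List ℕ) (n : ℕ) (hn : n ≠ 1) :
    l.Perm [1, 1, n, n] ↔ l.length = 4 ∧ l.count 1 = 2 ∧ l.count n = 2 := by
  constructor
  · intro h
    refine ⟨h.length_eq, ?_, ?_⟩
    · rw [h.count_eq]
      simp [List.count_cons, hn]
    · rw [h.count_eq]
      simp [List.count_cons, hn.symm]
  · rintro ⟨h1, h2, h3⟩
    rw [← Multiset.coe_eq_coe]
    symm
    refine Multiset.eq_of_le_of_card_le ?_ (by simp [h1])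
    rw [Multiset.le_iff_count]
    intro a
    rw [Multiset.coe_count, Multiset.coe_count]
    by_cases ha : a = 1
    · subst ha
      rw [h2]
      simp [List.count_cons, hn]
    · by_cases ha' : a = n
      · subst ha'
        rw [h3]
        simp [List.count_cons, hn.symm]
      · simp [List.count_cons, Ne.symm ha, Ne.symm ha']

theorem critb_iff (l : List ℕ) : critb l = true ↔ Crit l := by
  unfold critb Crit
  simp only [Bool.and_eq_true, decide_eq_true_eq, Bool.not_eq_true', Bool.and_eq_false_iff,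
    decide_eq_false_iff_not, Bool.or_eq_true, Nat.dvd_iff_mod_eq_zero]
  refine and_congr_right fun h1 => ?_
  refine and_congr ?_ (and_congr ?_ ?_)
  · have := perm2_iff l
    constructor
    · intro h n hn
      have h2 := this.1 ⟨n, hn⟩
      rcases h with h | h
      · exact h h2.1
      · exact h h2.2
    · intro h
      by_contra hcon
      push Not at hcon
      obtain ⟨n, hn⟩ := this.2 ⟨hcon.1, hcon.2⟩
      exact h n hn
  · constructor
    · intro h n hn hp
      rw [List.any_eq_false] at h
      by_cases hn1 : n = 1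
      · subst hn1
        have h2 := hp.count_eq 1
        have h3 := hp.sum_eq
        simp at h2 h3
        omega
      · have h2 := (perm4_iff l n hn1).1 hp
        have hm : n ∈ l := List.count_pos_iff.1 (by omega)
        refine h n hm ?_
        unfold exc4
        simp [hn, h2, hn1]
    · intro h
      rw [List.any_eq_false]
      intro n hm hb
      unfold exc4 at hb
      simp only [Bool.and_eq_true, decide_eq_true_eq, Bool.not_eq_true',
        decide_eq_false_iff_not] at hb
      obtain ⟨h2, h3, h4, h5, h6⟩ := hb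
      exact h n h2 ((perm4_iff l n h6).2 ⟨h3, h4, h5⟩)
  · rw [← Bool.not_eq_true, List.all_eq_true]
    simp only [Bool.or_eq_true, decide_eq_true_eq]
    tauto

theorem poly_critb : Poly critb := by
  have hc : ∀ {α : Type} [TEnc α] {f : α → List ℕ}, Poly f → Poly (fun a => (f a).count 1) :=
    fun hf => H612.poly_count hf (Pool.Agent.NPC.Poly.const 1)
  refine Poly.and ?_ (Poly.and ?_ (Poly.and ?_ (Poly.or ?_ ?_)))
  · exact Poly.decide_le (Poly.mul (Pool.Agent.NPC.Poly.const 2) (hc Poly.id)) (Poly.sum Poly.id)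
  · exact Poly.not (Poly.and (Poly.decide_eq (Poly.length Poly.id) (Pool.Agent.NPC.Poly.const 2))
      (Poly.decide_le (Pool.Agent.NPC.Poly.const 1) (hc Poly.id)))
  · refine Poly.not (Poly.any (p := fun (l : List ℕ) n => exc4 l n) Poly.id ?_)
    refine Poly.and ?_ (Poly.and ?_ (Poly.and ?_ (Poly.and ?_ ?_)))
    · exact Poly.decide_eq (Poly.mod (Poly.snd Poly.id) (Pool.Agent.NPC.Poly.const 2)) (Pool.Agent.NPC.Poly.const 1)
    · exact Poly.decide_eq (Poly.length (Poly.fst Poly.id)) (Pool.Agent.NPC.Poly.const 4)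
    · exact Poly.decide_eq (hc (Poly.fst Poly.id)) (Pool.Agent.NPC.Poly.const 2)
    · exact Poly.decide_eq (H612.poly_count (Poly.fst Poly.id) (Poly.snd Poly.id)) (Pool.Agent.NPC.Poly.const 2)
    · exact Poly.not (Poly.decide_eq (Poly.snd Poly.id) (Pool.Agent.NPC.Poly.const 1))
  · refine Poly.not (Poly.all (p := fun (_ : List ℕ) n => decide (n = 1) || decide (n = 3))
      Poly.id ?_)
    exact Poly.or (Poly.decide_eq (Poly.snd Poly.id) (Pool.Agent.NPC.Poly.const 1))
      (Poly.decide_eq (Poly.snd Poly.id) (Pool.Agent.NPC.Poly.const 3))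
  · exact Poly.decide_eq (Poly.mod (hc Poly.id) (Pool.Agent.NPC.Poly.const 3)) (Pool.Agent.NPC.Poly.const 0)

/-- the test of the instances -/
def test (I : List ℕ × ℕ) : Bool :=
  !I.1.isEmpty && (I.1.all (fun n => decide (1 ≤ n)) && (decide (1 ≤ I.2) &&
    (decide (2 ≤ I.2) || (decide (I.1.sum % 2 = 1) || critb I.1))))

theorem poly_test : Poly test := by
  refine Poly.and (Poly.not (Poly.isEmpty (Poly.fst Poly.id))) (Poly.and ?_ (Poly.and ?_
    (Poly.or ?_ (Poly.or ?_ ?_))))
  · exact Poly.all (p := fun (_ : List ℕ × ℕ) n => decide (1 ≤ n)) (Poly.fst Poly.id)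
      (Poly.decide_le (Pool.Agent.NPC.Poly.const 1) (Poly.snd Poly.id))
  · exact Poly.decide_le (Pool.Agent.NPC.Poly.const 1) (Poly.snd Poly.id)
  · exact Poly.decide_le (Pool.Agent.NPC.Poly.const 2) (Poly.snd Poly.id)
  · exact Poly.decide_eq (Poly.mod (Poly.sum (Poly.fst Poly.id)) (Pool.Agent.NPC.Poly.const 2)) (Pool.Agent.NPC.Poly.const 1)
  · exact poly_critb.comp (Poly.fst Poly.id)

end Q325.Maj
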